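import Pool.Agent.Lib.MP_00289a_lc_h67.MultiMain

/-!
# MP_00289a_lc: VWaring equals its border class on families with few multidegrees

The definitions are in `Pool.Agent.Lib.MP_00289a_lc_h67.Defs` and
`Pool.Agent.Lib.MP_00289a_lc_h67.MultiDefs`.
-/

namespace Pool.Agent.Results.MP_00289a_lc.FewMultidegrees

open Filter Pool.Agent.Lib.MP_00289a_lc_h67

/-- (1) Let `f` be a form of degree `d ≥ 1` of border Waring rank at most `r` whose variables are
divided by `w` into blocks with at most `q` variables each, and let `t` be the number of its
multidegrees with respect to these blocks. Then the Waring rank of `f` is at most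
`t * (t * (d + 1) * r) ^ q`. (For `q = 1` and `w` injective, `t` is the number of monomials.)

(2) Hence a p-family whose variables are divided into blocks with at most `q` variables such that
the number of multidegrees is polynomially bounded is in the border class of VWaring if and only if
it is in VWaring. -/
theorem result :
    (∀ (σ B : Type) [Fintype σ] [Fintype B] (w : σ → B) (q : ℕ),
      (∀ j, Nat.card {s // w s = j} ≤ q) →
      ∀ (f : MvPolynomial σ ℂ) (d r : ℕ), 1 ≤ d → borderWaringRank d f ≤ r →
        waringRank d f ≤
          (((multidegrees w f).card * ((multidegrees w f).card * (d + 1) * r) ^ q : ℕ) : ℕ∞)) ∧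
    ∀ (F : PFamily) (B : ℕ → Type) [∀ n, Fintype (B n)] (w : ∀ n, F.Var n → B n) (q : ℕ),
      (∀ n j, Nat.card {s // w n s = j} ≤ q) →
      ∀ c C : ℕ, (∀ᶠ n in atTop, (multidegrees (w n) (F.form n)).card ≤ C * n ^ c) →
        (BorderVWaring F ↔ VWaring F) := by
  refine ⟨?_, ?_⟩
  · intro σ B _ _ w q hq f d r hd hb
    exact waringRank_le (isSumOfPowers_of_multidegrees w hq (by omega) hb)
  · intro F B _ w q hq c C hC
    exact ⟨vwaring_of_multidegrees F w q hq c C hC, border_of_vwaring F⟩

end Pool.Agent.Results.MP_00289a_lc.FewMultidegrees
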