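import Pool.Agent.Lib.MP_00289a_lc_h78.Supp9

/-!
# MP_00289a_lc: VWaring equals its border class on families with symmetric group actions

The definitions are in `Pool.Agent.Lib.MP_00289a_lc_h67.Defs` and
`Pool.Agent.Lib.MP_00289a_lc_h78.SuppDefs`.
-/

namespace Pool.Agent.Results.MP_00289a_lc.SmallSupportsWaring

open Filter Pool.Agent.Lib.MP_00289a_lc_h67 Pool.Agent.Lib.MP_00289a_lc_h78

/-- (1) Let the product of the symmetric groups of `Fin (N g)`, `g < G`, act by `ρ` on the variables
with at most `t` orbits such that each variable is fixed by all permutations fixing some `k` (or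
fewer) elements of each `Fin (N g)`. Let `f` be an invariant form of degree `d ≥ 1` of border Waring
rank at most `r`. If `N g < 4 * k * (2 * k + 1) * s` or `r < (N g / 2).choose s` for all `g` then the
Waring rank of `f` is at most
`(8 * k ^ 2 * V + 2) ^ ((2 * k * s - 1) * G) * (d + 1) ^ (t * (4 * k * (2 * k + 1) * s) ^ (2 * k * G))`,
where `V` is the number of variables.

(2) Hence a p-family of such forms, with the same `G`, `k`, `t` for all `n` and with `N g ≤ K` or
`N g ≥ n ^ (1 / K)` for all large `n` and all `g`, is in the border class of VWaring if and only if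
it is in VWaring. -/
theorem result :
    (∀ (σ : Type) [Fintype σ] (G k t : ℕ) (N : Fin G → ℕ)
      (ρ : (∀ g, Equiv.Perm (Fin (N g))) →* Equiv.Perm σ), SmallSupports ρ k t →
      ∀ f : MvPolynomial σ ℂ, IsInvariant ρ f →
      ∀ d r s : ℕ, 1 ≤ d → 1 ≤ k → 1 ≤ s → borderWaringRank d f ≤ r →
        (∀ g, N g < 4 * k * (2 * k + 1) * s ∨ r < (N g / 2).choose s) →
        waringRank d f ≤ (((8 * k ^ 2 * Fintype.card σ + 2) ^ ((2 * k * s - 1) * G) *
          (d + 1) ^ (t * (4 * k * (2 * k + 1) * s) ^ (2 * k * G)) : ℕ) : ℕ∞)) ∧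
    ∀ (F : PFamily) (G k t : ℕ) (_ : 1 ≤ k) (N : ℕ → Fin G → ℕ)
      (ρ : ∀ n, (∀ g, Equiv.Perm (Fin (N n g))) →* Equiv.Perm (F.Var n)),
      (∀ n, SmallSupports (ρ n) k t) → (∀ n, IsInvariant (ρ n) (F.form n)) →
      ∀ K : ℕ, (∀ᶠ n in atTop, ∀ g, N n g ≤ K ∨ n ≤ N n g ^ K) →
        (BorderVWaring F ↔ VWaring F) := by
  refine ⟨?_, ?_⟩
  · intro σ _ G k t N ρ h f hf d r s hd hk hs hb hN
    exact waringRank_le (isSumOfPowers_small_waring h hf (by omega) hb hk hs hN)
  · intro F G k t hk N ρ hρ hf K hN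
    exact ⟨vwaring_of_small_waring F hk N ρ hρ hf K hN, border_of_vwaring F⟩

end Pool.Agent.Results.MP_00289a_lc.SmallSupportsWaring
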