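import Pool.Agent.Lib.MP_00289a_lc_h78.Sparse4

/-!
# MP_00289a_lc: VChow equals its border class on families with a sparse and a symmetric part

The definitions are in `Pool.Agent.Lib.MP_00289a_lc_h67.Defs`,
`Pool.Agent.Lib.MP_00289a_lc_h78.ChowDefs` and `Pool.Agent.Lib.MP_00289a_lc_h78.SparseDefs`.
-/

namespace Pool.Agent.Results.MP_00289a_lc.SparseSupportsChow

open Filter Pool.Agent.Lib.MP_00289a_lc_h67 Pool.Agent.Lib.MP_00289a_lc_h78

/-- (1) Let the product of the symmetric groups of `Fin (N g)`, `g < G`, act by `ρ` on the variables,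
fixing the variables in `Y`, with at most `t` orbits outside `Y`, such that each variable outside `Y`
is fixed by all permutations fixing some `k` (or fewer) elements of each `Fin (N g)`. Let `f` be an
invariant form of degree `d ≥ 1` of border Chow rank at most `r`, and let
`N g < 4 * k * (2 * k + 1) * s` or `r * d.choose s < (N g / 2).choose s` for all `g`. Then the
coefficient (a form in the other variables) of each monomial in the variables in `Y` has Waring rank
at most
`B = (8 * k ^ 2 * V + 2) ^ ((2 * k * s - 1) * G) * (d + 1) ^ (t * (4 * k * (2 * k + 1) * s) ^ (2 * k * G))`,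
where `V` is the number of variables, and the Chow rank of `f` is at most `u * B`, where `u` is the
number of monomials in the variables in `Y` that occur.

(2) Hence a p-family of such forms, with the same `G`, `k`, `t` for all `n` and with `u ≤ n ^ K` and
`N g ≤ K` or `N g ≥ max (n ^ (1 / K), deg ^ (1 + 1 / K))` for all large `n` and all `g`, is in the
border class of VChow if and only if it is in VChow; and if all `Y` are empty, if and only if it is
in VWaring. -/
theorem result :
    (∀ (σ : Type) [Fintype σ] (G k t : ℕ) (N : Fin G → ℕ)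
      (ρ : (∀ g, Equiv.Perm (Fin (N g))) →* Equiv.Perm σ) (Y : Set σ), SmallSupportsOff ρ Y k t →
      ∀ f : MvPolynomial σ ℂ, IsInvariant ρ f →
      ∀ d r s : ℕ, 1 ≤ d → 1 ≤ k → 1 ≤ s → borderChowRank d f ≤ r →
        (∀ g, N g < 4 * k * (2 * k + 1) * s ∨ r * d.choose s < (N g / 2).choose s) →
        (∀ β : σ →₀ ℕ, β.degree < d → waringRank (d - β.degree) (coeffOff Y β f) ≤
          (((8 * k ^ 2 * Fintype.card σ + 2) ^ ((2 * k * s - 1) * G) *
            (d + 1) ^ (t * (4 * k * (2 * k + 1) * s) ^ (2 * k * G)) : ℕ) : ℕ∞)) ∧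
        chowRank d f ≤ (((expsIn Y f).card *
          ((8 * k ^ 2 * Fintype.card σ + 2) ^ ((2 * k * s - 1) * G) *
            (d + 1) ^ (t * (4 * k * (2 * k + 1) * s) ^ (2 * k * G))) : ℕ) : ℕ∞)) ∧
    ∀ (F : PFamily) (G k t : ℕ) (_ : 1 ≤ k) (N : ℕ → Fin G → ℕ)
      (ρ : ∀ n, (∀ g, Equiv.Perm (Fin (N n g))) →* Equiv.Perm (F.Var n))
      (Y : ∀ n, Set (F.Var n)),
      (∀ n, SmallSupportsOff (ρ n) (Y n) k t) → (∀ n, IsInvariant (ρ n) (F.form n)) →
      ∀ K : ℕ, (∀ᶠ n in atTop, ∀ g,
          N n g ≤ K ∨ (n ≤ N n g ^ K ∧ F.deg n ^ (K + 1) ≤ N n g ^ K)) →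
        (∀ᶠ n in atTop, (expsIn (Y n) (F.form n)).card ≤ n ^ K) →
        (BorderVChow F ↔ VChow F) ∧ ((∀ n, Y n = ∅) → (VChow F ↔ VWaring F)) := by
  refine ⟨?_, ?_⟩
  · intro σ _ G k t N ρ Y h f hf d r s hd hk hs hb hN
    refine ⟨fun β hβ => ?_, ?_⟩
    · exact waringRank_le (isSumOfPowers_coeffOff h hf hb hk hs hN β hβ)
    · exact chowRank_le (isSumOfProducts_sparse h hf (by omega) hb hk hs hN)
  · intro F G k t hk N ρ Y hρ hf K hN hY
    refine ⟨⟨vchow_of_sparse F hk N ρ Y hρ hf K hN hY, border_of_vchow F⟩, fun hempty => ?_⟩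
    have hρ' : ∀ n, SmallSupports (ρ n) k t := fun n =>
      smallSupports_of_off (by have h := hρ n; rwa [hempty n] at h)
    exact ⟨fun h' => vwaring_of_small_chow F hk N ρ hρ' hf K hN (border_of_vchow F h'),
      vchow_of_vwaring F⟩

end Pool.Agent.Results.MP_00289a_lc.SparseSupportsChow
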